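import Mathlib
import Pool.Agent.Q137.Ballots.Defs
import Pool.Agent.Q137.Ballots.Cyclic
import Pool.Agent.Q137.Ballots.Data

set_option autoImplicit false

/-!
# The lower bound `6n - 3` for balanced ballot systems fails

`Q137.Ballots.Ballot m` is the type of ballots for offices with `m j` candidates,
`Q137.Ballots.IsBalanced m S w` says that the finite set `S` of ballots with the multiplicities
`w` is a balanced ballot system and `Q137.Ballots.B m` is the least possible number of distinct
ballots.

For `n = 3` and for `n = 4` there is a balanced ballot system for three offices with `2n - 1`,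
`2n` and `2n + 1` candidates that uses `5n - 2` distinct ballots (13 instead of 15, and 18 instead
of 21).  So the bound `6n - 3` of the question is false.
-/

namespace Pool.Agent.Results.MP_14f59b_co.FewBallots

open Q137.Ballots

theorem result :
    (∀ n : ℕ, n = 3 ∨ n = 4 →
      ∃ (S : Finset (Ballot ![2 * n - 1, 2 * n, 2 * n + 1]))
        (w : Ballot ![2 * n - 1, 2 * n, 2 * n + 1] → ℕ),
        IsBalanced ![2 * n - 1, 2 * n, 2 * n + 1] S w ∧ S.card = 5 * n - 2) ∧
    ¬ ∀ n : ℕ, 0 < n → 6 * n - 3 ≤ B ![2 * n - 1, 2 * n, 2 * n + 1] := by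
  refine ⟨?_, fun h => ?_⟩
  · rintro n (rfl | rfl)
    · exact system567
    · exact system789
  · have h1 := h 3 (by norm_num)
    have h2 : B ![5, 6, 7] ≤ 13 := B_le system567
    have h3 : B ![2 * 3 - 1, 2 * 3, 2 * 3 + 1] = B ![5, 6, 7] := rfl
    omega

end Pool.Agent.Results.MP_14f59b_co.FewBallots
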